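import Mathlib

set_option autoImplicit false

open MeasureTheory Set Metric Real Complex Filter Topology

namespace Pool.Agent.Lib.MP_435399_an.CV

/-- The Cauchy integral over a circle, in the inverted variable. -/
noncomputable def cau (φ : ℂ → ℂ) (x0 : ℂ) (r : ℝ) (a : ℂ) : ℂ :=
  (2 * π * I)⁻¹ * ∮ y in C(x0, r), a * (1 - a * y)⁻¹ * φ y

lemma kappa_le {x0 : ℂ} {r : ℝ} {y : ℂ} (hy : y ∈ sphere x0 r) (a : ℂ) :
    |‖1 - a * x0‖ - r * ‖a‖| ≤ ‖1 - a * y‖ := by
  have h1 : ‖y - x0‖ = r := by simpa [dist_eq_norm] using hy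
  have h2 := abs_norm_sub_norm_le (1 - a * x0) (a * (y - x0))
  rw [norm_mul, h1, mul_comm ‖a‖ r] at h2
  have e : 1 - a * x0 - a * (y - x0) = 1 - a * y := by ring
  rwa [e] at h2

lemma differentiableAt_cau {φ : ℂ → ℂ} {x0 : ℂ} {r : ℝ} (hr : 0 ≤ r)
    (hφ : ContinuousOn φ (sphere x0 r)) {l : ℂ} (hl : ‖1 - l * x0‖ ≠ r * ‖l‖) :
    DifferentiableAt ℂ (cau φ x0 r) l := by
  set κ : ℂ → ℝ := fun a => |‖1 - a * x0‖ - r * ‖a‖| with hκd
  have hκ : Continuous κ := by fun_prop
  have h0 : 0 < κ l := abs_pos.mpr (sub_ne_zero.mpr hl)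
  set m := κ l / 2 with hm
  have hm0 : 0 < m := by linarith
  have hs : {a | m < κ a} ∈ 𝓝 l := hκ.continuousAt.eventually_const_lt (by linarith)
  obtain ⟨B, hB⟩ := (isCompact_sphere x0 r).exists_bound_of_continuousOn hφ
  have hc : Continuous fun θ : ℝ => φ (circleMap x0 r θ) :=
    hφ.comp_continuous (continuous_circleMap _ _) (circleMap_mem_sphere _ hr)
  have hle : ∀ a, m < κ a → ∀ θ, m ≤ ‖1 - a * circleMap x0 r θ‖ := fun a ha θ =>
    ha.le.trans (kappa_le (circleMap_mem_sphere _ hr θ) a)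
  have hne : ∀ a, m < κ a → ∀ θ, 1 - a * circleMap x0 r θ ≠ 0 := fun a ha θ =>
    norm_pos_iff.mp (hm0.trans_le (hle a ha θ))
  have hd : Continuous fun θ : ℝ => deriv (circleMap x0 r) θ := by
    simp only [deriv_circleMap]
    exact (continuous_circleMap _ _).mul continuous_const
  have hb : ∀ a, Continuous fun θ : ℝ => 1 - a * circleMap x0 r θ := fun a =>
    continuous_const.sub (continuous_const.mul (continuous_circleMap _ _))
  have hF : ∀ a, m < κ a → Continuous fun θ : ℝ => deriv (circleMap x0 r) θ •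
      (a * (1 - a * circleMap x0 r θ)⁻¹ * φ (circleMap x0 r θ)) := fun a ha =>
    hd.smul ((continuous_const.mul ((hb a).inv₀ (hne a ha))).mul hc)
  have hl' : m < κ l := by linarith
  have := intervalIntegral.hasDerivAt_integral_of_dominated_loc_of_deriv_le (μ := volume) (a := 0)
    (b := 2 * π)
    (F := fun a θ => deriv (circleMap x0 r) θ •
      (a * (1 - a * circleMap x0 r θ)⁻¹ * φ (circleMap x0 r θ)))
    (F' := fun a θ => deriv (circleMap x0 r) θ •
      (((1 - a * circleMap x0 r θ) ^ 2)⁻¹ * φ (circleMap x0 r θ)))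
    (bound := fun _ => r * ((m ^ 2)⁻¹ * B)) hs ?_ ?_ ?_ ?_ ?_ ?_
  · exact this.2.differentiableAt.const_mul _
  · filter_upwards [hs] with a ha using (hF a ha).aestronglyMeasurable
  · exact (hF l hl').intervalIntegrable _ _
  · exact (hd.smul ((((hb l).pow 2).inv₀ fun θ => pow_ne_zero 2 (hne l hl' θ)).mul
      hc)).aestronglyMeasurable
  · refine Eventually.of_forall fun θ _ a ha => ?_
    rw [norm_smul, norm_mul, norm_inv, norm_pow, deriv_circleMap, norm_mul, Complex.norm_I, mul_one,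
      norm_circleMap_zero, abs_of_nonneg hr]
    refine mul_le_mul_of_nonneg_left (mul_le_mul ?_ (hB _ (circleMap_mem_sphere _ hr θ))
      (norm_nonneg _) (by positivity)) hr
    exact inv_anti₀ (by positivity) (pow_le_pow_left₀ hm0.le (hle a ha θ) 2)
  · exact intervalIntegrable_const
  · refine Eventually.of_forall fun θ _ a ha => HasDerivAt.fun_const_smul _ (HasDerivAt.mul_const ?_ _)
    have h1 : HasDerivAt (fun a : ℂ => 1 - a * circleMap x0 r θ) (-(1 * circleMap x0 r θ)) a :=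
      ((hasDerivAt_id a).mul_const _).const_sub _
    have h2 := (hasDerivAt_id' a).fun_mul (h1.fun_inv (hne a ha θ))
    refine h2.congr_deriv ?_
    have := hne a ha θ
    field_simp
    ring

lemma isOpen_annulus (x0 : ℂ) (r0 r3 : ℝ) : IsOpen {y : ℂ | r0 < ‖y - x0‖ ∧ ‖y - x0‖ < r3} := by
  have h : Continuous fun y : ℂ => ‖y - x0‖ := by fun_prop
  exact (isOpen_lt continuous_const h).inter (isOpen_lt h continuous_const)

/-- Cauchy formula on an annulus. -/
lemma split {φ : ℂ → ℂ} {x0 : ℂ} {r0 r1 r2 r3 : ℝ} (h0 : 0 ≤ r0) (h1 : r0 < r1) (h3 : r2 < r3)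
    (hφ : ∀ x, r0 < ‖x - x0‖ → ‖x - x0‖ < r3 → DifferentiableAt ℂ φ x)
    {a : ℂ} (ha1 : r1 * ‖a‖ < ‖1 - a * x0‖) (ha2 : ‖1 - a * x0‖ < r2 * ‖a‖) :
    φ a⁻¹ = cau φ x0 r1 a - cau φ x0 r2 a := by
  have ha : a ≠ 0 := by
    rintro rfl
    norm_num at ha2
  have hap : 0 < ‖a‖ := norm_pos_iff.mpr ha
  have hx : ‖a⁻¹ - x0‖ * ‖a‖ = ‖1 - a * x0‖ := by
    rw [← norm_mul]
    congr 1
    field_simp
  have hx1 : r1 < ‖a⁻¹ - x0‖ := lt_of_mul_lt_mul_right (by rwa [hx]) hap.le
  have hx2 : ‖a⁻¹ - x0‖ < r2 := lt_of_mul_lt_mul_right (by rwa [hx]) hap.le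
  set x := a⁻¹ with hxd
  set U : Set ℂ := {y | r0 < ‖y - x0‖ ∧ ‖y - x0‖ < r3} with hU
  have hUo : IsOpen U := isOpen_annulus x0 r0 r3
  have hφU : DifferentiableOn ℂ φ U := fun y hy => (hφ y hy.1 hy.2).differentiableWithinAt
  have hxU : x ∈ U := ⟨by linarith, by linarith⟩
  have hds := (Complex.differentiableOn_dslope (hUo.mem_nhds hxU)).mpr hφU
  have hsub : closedBall x0 r2 \ ball x0 r1 ⊆ U := by
    rintro y ⟨e1, e2⟩
    rw [mem_closedBall, dist_eq_norm] at e1
    rw [mem_ball, dist_eq_norm, not_lt] at e2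
    exact ⟨by linarith, by linarith⟩
  have hr1 : 0 < r1 := by linarith
  have hr12 : r1 ≤ r2 := by linarith
  have key := circleIntegral_eq_of_differentiable_on_annulus_off_countable (c := x0) hr1 hr12
    (f := dslope φ x) countable_empty (hds.continuousOn.mono hsub)
    (fun y hy => hds.differentiableAt (hUo.mem_nhds (hsub
      ⟨ball_subset_closedBall hy.1.1, fun h => hy.1.2 (ball_subset_closedBall h)⟩)))
  have hev : ∀ r : ℝ, r0 < r → r < r3 → ‖x - x0‖ ≠ r → (∮ y in C(x0, r), dslope φ x y) =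
      -(∮ y in C(x0, r), a * (1 - a * y)⁻¹ * φ y) - φ x * ∮ y in C(x0, r), (y - x)⁻¹ := by
    intro r e1 e2 e3
    have hr : 0 ≤ r := by linarith
    have hyx : ∀ y ∈ sphere x0 r, y - x ≠ 0 := fun y hy h => e3 (by
      rw [← sub_eq_zero.mp h]
      simpa [dist_eq_norm] using hy)
    have hsU : sphere x0 r ⊆ U := fun y hy => by
      have : ‖y - x0‖ = r := by simpa [dist_eq_norm] using hy
      exact ⟨by linarith, by linarith⟩
    have c1 : ContinuousOn (fun y => (y - x)⁻¹) (sphere x0 r) :=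
      ContinuousOn.inv₀ (by fun_prop) hyx
    have e4 : (∮ y in C(x0, r), a * (1 - a * y)⁻¹ * φ y) =
        ∮ y in C(x0, r), (-1) * ((y - x)⁻¹ * φ y) := by
      refine circleIntegral.integral_congr hr fun y hy => ?_
      have e5 : 1 - a * y = -a * (y - x) := by
        rw [hxd]
        field_simp
        ring
      have := hyx y hy
      simp only [e5]
      field_simp
    rw [e4, circleIntegral.integral_const_mul, neg_one_mul, neg_neg,
      ← circleIntegral.integral_const_mul, ← circleIntegral.integral_sub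
        (f := fun y => (y - x)⁻¹ * φ y) (g := fun y => φ x * (y - x)⁻¹)
        ((c1.mul (hφU.continuousOn.mono hsU)).circleIntegrable hr)
        ((continuousOn_const.mul c1).circleIntegrable hr)]
    refine circleIntegral.integral_congr hr fun y hy => ?_
    rw [dslope_of_ne _ (sub_ne_zero.mp (hyx y hy)), slope_def_field]
    field_simp
  have z1 : (∮ y in C(x0, r1), (y - x)⁻¹) = 0 := by
    have hyx : ∀ y ∈ closedBall x0 r1, y - x ≠ 0 := fun y hy h => by
      rw [mem_closedBall, dist_eq_norm, sub_eq_zero.mp h] at hy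
      linarith
    have : DifferentiableOn ℂ (fun y => (y - x)⁻¹) (closedBall x0 r1) :=
      DifferentiableOn.inv (by fun_prop) hyx
    exact (this.diffContOnCl_ball subset_rfl).circleIntegral_eq_zero hr1.le
  have z2 : (∮ y in C(x0, r2), (y - x)⁻¹) = 2 * π * I :=
    circleIntegral.integral_sub_inv_of_mem_ball (by rwa [mem_ball, dist_eq_norm])
  rw [hev r1 h1 (by linarith) hx1.ne', hev r2 (by linarith) h3 hx2.ne, z1, z2] at key
  unfold cau
  have hπ : (2 * π * I : ℂ) ≠ 0 := two_pi_I_ne_zero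
  rw [← mul_sub, eq_inv_mul_iff_mul_eq₀ hπ]
  linear_combination -key

end Pool.Agent.Lib.MP_435399_an.CV
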