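import Mathlib
import Pool.Agent.Lib.MP_435399_an.CV.Split

set_option autoImplicit false

open MeasureTheory Set Metric Real Complex Filter Topology

namespace Pool.Agent.Lib.MP_435399_an.CV

/-- The outer transform is holomorphic off the reflected disc. -/
lemma differentiableAt_M {x0 : ℂ} {ρ N : ℝ} {L : (ℂ → ℂ) →ₗ[ℂ] ℂ}
    (hL : ∀ (ψ : ℂ → ℂ) (C : ℝ), 0 ≤ C → (∀ x ∈ sphere x0 ρ, ‖ψ x‖ ≤ C) → ‖L ψ‖ ≤ N * C)
    {l : ℂ} (hl : ρ * ‖l‖ < ‖1 - l * x0‖) :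
    DifferentiableAt ℂ (fun a : ℂ => L (fun x => ((1 - a * x) ^ 2)⁻¹)) l := by
  set B := ‖x0‖ + ρ with hB
  set m := (‖1 - l * x0‖ - ρ * ‖l‖) / 2 with hm
  have hm0 : 0 < m := by linarith
  set C := B ^ 2 * (1 / m ^ 4 + 2 / m ^ 4) with hC
  have hC0 : 0 ≤ C := by positivity
  refine HasDerivAt.differentiableAt (f' := L (fun x => 2 * x / (1 - l * x) ^ 3)) ?_
  rw [hasDerivAt_iff_isLittleO]
  have hev : ∀ᶠ a in 𝓝 l, m < ‖1 - a * x0‖ - ρ * ‖a‖ :=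
    (by fun_prop : Continuous fun a : ℂ => ‖1 - a * x0‖ - ρ * ‖a‖).continuousAt.eventually_const_lt
      (by linarith)
  refine Asymptotics.IsBigO.trans_isLittleO (g := fun a => ‖a - l‖ ^ 2) ?_
    (Asymptotics.isLittleO_pow_sub_sub l one_lt_two)
  refine Asymptotics.IsBigO.of_bound (N * C) ?_
  filter_upwards [hev] with a ha
  have e : L (fun x => ((1 - a * x) ^ 2)⁻¹) - L (fun x => ((1 - l * x) ^ 2)⁻¹)
      - (a - l) • L (fun x => 2 * x / (1 - l * x) ^ 3)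
      = L (fun x => ((1 - a * x) ^ 2)⁻¹ - ((1 - l * x) ^ 2)⁻¹
        - (a - l) * (2 * x / (1 - l * x) ^ 3)) := by
    rw [← map_smul, ← map_sub, ← map_sub]
    rfl
  rw [e, Real.norm_of_nonneg (by positivity), mul_assoc]
  refine hL _ _ (by positivity) fun x hx => ?_
  have h1 : m ≤ ‖1 - a * x‖ := ha.le.trans ((le_abs_self _).trans (kappa_le hx a))
  have h2 : m ≤ ‖1 - l * x‖ := le_trans (by linarith) ((le_abs_self _).trans (kappa_le hx l))
  have n1 : 1 - a * x ≠ 0 := norm_pos_iff.mp (hm0.trans_le h1)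
  have n2 : 1 - l * x ≠ 0 := norm_pos_iff.mp (hm0.trans_le h2)
  have e2 : ((1 - a * x) ^ 2)⁻¹ - ((1 - l * x) ^ 2)⁻¹ - (a - l) * (2 * x / (1 - l * x) ^ 3)
      = x ^ 2 * (1 / ((1 - a * x) ^ 2 * (1 - l * x) ^ 2) + 2 / ((1 - a * x) * (1 - l * x) ^ 3))
        * (a - l) ^ 2 := by
    have k : ∀ A B : ℂ, A ≠ 0 → B ≠ 0 → (A ^ 2)⁻¹ - (B ^ 2)⁻¹ - 2 * (B - A) / B ^ 3
        = (B - A) ^ 2 * (1 / (A ^ 2 * B ^ 2) + 2 / (A * B ^ 3)) := by
      intro A B hA hB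
      field_simp
      ring
    have k1 := k _ _ n1 n2
    have k2 : 1 - l * x - (1 - a * x) = (a - l) * x := by ring
    rw [k2] at k1
    linear_combination k1
  rw [e2, norm_mul, norm_mul, norm_pow, norm_pow]
  refine mul_le_mul_of_nonneg_right ?_ (by positivity)
  refine mul_le_mul (pow_le_pow_left₀ (norm_nonneg _)
    (norm_le_of_mem_closedBall (sphere_subset_closedBall hx)) 2)
    ((norm_add_le _ _).trans (add_le_add ?_ ?_)) (norm_nonneg _) (by positivity)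
  · rw [norm_div, norm_one, norm_mul, norm_pow, norm_pow]
    refine div_le_div_of_nonneg_left zero_le_one (by positivity) ?_
    calc m ^ 4 = m ^ 2 * m ^ 2 := by ring
      _ ≤ _ := by gcongr
  · rw [norm_div, norm_mul, norm_pow, Complex.norm_ofNat]
    refine div_le_div_of_nonneg_left zero_le_two (by positivity) ?_
    calc m ^ 4 = m * m ^ 3 := by ring
      _ ≤ _ := by gcongr

/-- Approximation of the outer transform by a rational function with one pole. -/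
lemma exists_approx {x0 : ℂ} {ρ N : ℝ} {L : (ℂ → ℂ) →ₗ[ℂ] ℂ} (hρ : 0 < ρ) (hN : 0 ≤ N)
    (hL : ∀ (ψ : ℂ → ℂ) (C : ℝ), 0 ≤ C → (∀ x ∈ sphere x0 ρ, ‖ψ x‖ ≤ C) → ‖L ψ‖ ≤ N * C)
    {r c ε : ℝ} (hr : ρ < r) (hc : 0 < c) (hε : 0 < ε) :
    ∃ (m : ℕ) (p : ℂ → ℂ), Differentiable ℂ p ∧ ∀ a : ℂ, c ≤ ‖a‖ → r * ‖a‖ ≤ ‖1 - a * x0‖ →
      ‖L (fun x => ((1 - a * x) ^ 2)⁻¹) - p a / (1 - a * x0) ^ m‖ ≤ ε := by
  have hr0 : 0 < r := by linarith
  set q := ρ / r with hq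
  have hq0 : 0 ≤ q := by positivity
  have hq1 : q < 1 := (div_lt_one hr0).mpr hr
  set d := c * (r - ρ) with hd
  have hd0 : 0 < d := mul_pos hc (by linarith)
  have ht : Tendsto (fun n : ℕ => N * (q ^ n * 3 / d ^ 2)) atTop (𝓝 0) := by
    simpa using (((tendsto_pow_atTop_nhds_zero_of_lt_one hq0 hq1).mul_const 3).div_const
      (d ^ 2)).const_mul N
  obtain ⟨n, hn⟩ := (ht.eventually (gt_mem_nhds hε)).exists
  refine ⟨2 * n, fun a => ∑ i ∈ Finset.range n, ∑ j ∈ Finset.range n,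
    ((1 - a * x0) ^ i * a ^ (n - 1 - i) * ((1 - a * x0) ^ j * a ^ (n - 1 - j))) *
      L (fun x => (x - x0) ^ (n - 1 - i) * (x - x0) ^ (n - 1 - j)), by fun_prop, ?_⟩
  intro a ha1 ha2
  set A := 1 - a * x0 with hA
  have hap : 0 < ‖a‖ := hc.trans_le ha1
  have hAp : 0 < ‖A‖ := (mul_pos hr0 hap).trans_le ha2
  have hA0 : A ≠ 0 := norm_pos_iff.mp hAp
  have e1 : (∑ i ∈ Finset.range n, ∑ j ∈ Finset.range n,
      (A ^ i * a ^ (n - 1 - i) * (A ^ j * a ^ (n - 1 - j))) *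
        L (fun x => (x - x0) ^ (n - 1 - i) * (x - x0) ^ (n - 1 - j))) =
      L (fun x => (∑ i ∈ Finset.range n, A ^ i * (a * (x - x0)) ^ (n - 1 - i)) ^ 2) := by
    have k : ∀ (u : ℂ) (ψ : ℂ → ℂ), u * L ψ = L (u • ψ) := fun u ψ => by
      rw [map_smul, smul_eq_mul]
    simp_rw [k, ← map_sum]
    congr 1
    ext x
    simp only [Finset.sum_apply, Pi.smul_apply, smul_eq_mul, sq, Finset.sum_mul_sum, mul_pow]
    refine Finset.sum_congr rfl fun i _ => Finset.sum_congr rfl fun j _ => ?_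
    ring
  have e2 : L (fun x => ((1 - a * x) ^ 2)⁻¹) -
      L (fun x => (∑ i ∈ Finset.range n, A ^ i * (a * (x - x0)) ^ (n - 1 - i)) ^ 2) / A ^ (2 * n)
      = L (fun x => ((1 - a * x) ^ 2)⁻¹ - (A ^ (2 * n))⁻¹ *
        (∑ i ∈ Finset.range n, A ^ i * (a * (x - x0)) ^ (n - 1 - i)) ^ 2) := by
    rw [div_eq_inv_mul, ← smul_eq_mul, ← map_smul, ← map_sub]
    rfl
  beta_reduce
  rw [e1, e2]
  refine (hL _ _ (by positivity) fun x hx => ?_).trans hn.le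
  have hx' : ‖x - x0‖ = ρ := by simpa [dist_eq_norm] using hx
  have h1 : d ≤ ‖1 - a * x‖ := by
    have := (le_abs_self _).trans (kappa_le hx a)
    have h2 : c * (r - ρ) ≤ ‖a‖ * (r - ρ) := mul_le_mul_of_nonneg_right ha1 (by linarith)
    nlinarith
  have n1 : 1 - a * x ≠ 0 := norm_pos_iff.mp (hd0.trans_le h1)
  have g1 := geom_sum₂_mul A (a * (x - x0)) n
  have g2 : A - a * (x - x0) = 1 - a * x := by rw [hA]; ring
  rw [g2] at g1
  set t := a * (x - x0) / A with htd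
  have ht1 : ‖t‖ ≤ q := by
    rw [htd, norm_div, norm_mul, hx', hq, div_le_div_iff₀ hAp hr0]
    nlinarith
  have ht2 : ‖t ^ n‖ ≤ q ^ n := by
    rw [norm_pow]
    exact pow_le_pow_left₀ (norm_nonneg _) ht1 n
  have ht3 : q ^ n ≤ 1 := pow_le_one₀ hq0 hq1.le
  have e3 : ((1 - a * x) ^ 2)⁻¹ - (A ^ (2 * n))⁻¹ *
      (∑ i ∈ Finset.range n, A ^ i * (a * (x - x0)) ^ (n - 1 - i)) ^ 2
      = t ^ n * (2 - t ^ n) / (1 - a * x) ^ 2 := by
    rw [(eq_div_iff n1).mpr g1, htd, div_pow (a * (x - x0)), pow_mul', sq (A ^ n)]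
    have : A ^ n ≠ 0 := pow_ne_zero n hA0
    generalize A ^ n = u at this ⊢
    generalize (a * (x - x0)) ^ n = v
    field_simp
    ring
  rw [e3, norm_div, norm_mul, norm_pow (1 - a * x)]
  have h4 : ‖2 - t ^ n‖ ≤ 3 := (norm_sub_le _ _).trans (by rw [Complex.norm_ofNat]; linarith)
  gcongr

end Pool.Agent.Lib.MP_435399_an.CV
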