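import Mathlib
import Pool.Agent.Lib.MP_435399_an.ZO.Core
import Pool.Agent.Lib.MP_435399_an.CV.Approx

set_option autoImplicit false

open MeasureTheory Set Metric Real Complex Filter Topology ComplexConjugate

namespace Pool.Agent.Lib.MP_435399_an.CV

open Pool.Agent.Lib.MP_435399_an

lemma norm_inv_sub {x x0 : ℂ} (hx : x ≠ 0) : ‖1 - x⁻¹ * x0‖ = ‖x - x0‖ * ‖x⁻¹‖ := by
  rw [← norm_mul]
  congr 1
  field_simp

lemma inner_lt_one {x0 : ℂ} {r : ℝ} (hr : 1 + r < ‖x0‖) {a : ℂ} (ha : ‖1 - a * x0‖ ≤ r * ‖a‖) :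
    ‖a‖ < 1 := by
  have h1 := norm_sub_norm_le (a * x0) 1
  rw [norm_sub_rev, norm_mul, norm_one] at h1
  by_contra h
  nlinarith [not_lt.mp h]

lemma isPreconnected_annulus (x0 : ℂ) {r0 : ℝ} (h0 : 0 ≤ r0) (r3 : ℝ) :
    IsPreconnected {y : ℂ | r0 < ‖y - x0‖ ∧ ‖y - x0‖ < r3} := by
  have h := ((isPreconnected_Ioo (a := r0) (b := r3)).prod (isPreconnected_univ (α := ℝ))).image
    (fun p : ℝ × ℝ => x0 + p.1 * Complex.exp (p.2 * I)) (by fun_prop)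
  convert h using 1
  ext y
  constructor
  · rintro ⟨e1, e2⟩
    refine ⟨(‖y - x0‖, arg (y - x0)), ⟨⟨e1, e2⟩, trivial⟩, ?_⟩
    simp only [Complex.norm_mul_exp_arg_mul_I]
    ring
  · rintro ⟨⟨s, θ⟩, ⟨⟨e1, e2⟩, -⟩, rfl⟩
    have : ‖x0 + s * Complex.exp (θ * I) - x0‖ = s := by
      rw [add_sub_cancel_left, norm_mul, Complex.norm_exp_ofReal_mul_I, mul_one, Complex.norm_real,
        Real.norm_of_nonneg (by linarith)]
    exact ⟨by simpa only [this] using e1, by simpa only [this] using e2⟩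

/-- A holomorphic function on an annulus vanishes or is bounded below on a thinner one. -/
lemma thin_annulus {ψ : ℂ → ℂ} {x0 : ℂ} {ρ ρ' : ℝ} (h0 : 0 ≤ ρ) (h1 : ρ < ρ')
    (hψ : ∀ x, ρ < ‖x - x0‖ → ‖x - x0‖ < ρ' → DifferentiableAt ℂ ψ x) :
    (∀ x, ρ < ‖x - x0‖ → ‖x - x0‖ < ρ' → ψ x = 0) ∨ ∃ r0 r3 μ : ℝ, ρ < r0 ∧ r0 < r3 ∧ r3 < ρ' ∧
      0 < μ ∧ ∀ x, r0 < ‖x - x0‖ → ‖x - x0‖ < r3 → μ ≤ ‖ψ x‖ := by
  have hd : DifferentiableOn ℂ ψ {y : ℂ | ρ < ‖y - x0‖ ∧ ‖y - x0‖ < ρ'} :=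
    fun y hy => (hψ y hy.1 hy.2).differentiableWithinAt
  have hK : ∀ s t : ℝ, IsCompact {y : ℂ | s ≤ ‖y - x0‖ ∧ ‖y - x0‖ ≤ t} := by
    intro s t
    have h : Continuous fun y : ℂ => ‖y - x0‖ := by fun_prop
    refine (isCompact_closedBall x0 t).of_isClosed_subset
      ((isClosed_le continuous_const h).inter (isClosed_le h continuous_const)) fun y hy => ?_
    rw [mem_closedBall, dist_eq_norm]
    exact hy.2
  rcases (hd.analyticOnNhd (isOpen_annulus x0 ρ ρ')).eqOn_zero_or_eventually_ne_zero_of_preconnected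
    (isPreconnected_annulus x0 h0 ρ') with h | h
  · exact Or.inl fun x e1 e2 => h ⟨e1, e2⟩
  right
  set s := (2 * ρ + ρ') / 3 with hs
  set t := (ρ + 2 * ρ') / 3 with ht
  have hfin := (hK s t).finite_sdiff_of_mem_codiscreteWithin (s := {x | ψ x ≠ 0})
    (codiscreteWithin_mono (show {y : ℂ | s ≤ ‖y - x0‖ ∧ ‖y - x0‖ ≤ t} ⊆
      {y : ℂ | ρ < ‖y - x0‖ ∧ ‖y - x0‖ < ρ'} from
      fun y hy => ⟨by linarith [hy.1], by linarith [hy.2]⟩) h)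
  have hT := hfin.image fun y => ‖y - x0‖
  have hst : s < t := by linarith
  obtain ⟨r, hr, hrT⟩ := (Ioo_infinite hst).exists_notMem_finite hT
  obtain ⟨δ, hδ, hδ'⟩ := Metric.isOpen_iff.mp (isOpen_Ioo.inter hT.isClosed.isOpen_compl) r ⟨hr, hrT⟩
  have hb : ∀ u, r - δ / 2 ≤ u → u ≤ r + δ / 2 → u ∈ ball r δ := fun u e1 e2 => by
    rw [mem_ball, Real.dist_eq, abs_lt]
    constructor <;> linarith
  have b1 := (hδ' (hb (r - δ / 2) le_rfl (by linarith))).1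
  have b2 := (hδ' (hb (r + δ / 2) (by linarith) le_rfl)).1
  have hne : ∀ y ∈ {y : ℂ | r - δ / 2 ≤ ‖y - x0‖ ∧ ‖y - x0‖ ≤ r + δ / 2}, ψ y ≠ 0 := by
    intro y hy h0
    have := hδ' (hb _ hy.1 hy.2)
    exact this.2 ⟨y, ⟨⟨this.1.1.le, this.1.2.le⟩, fun h => h h0⟩, rfl⟩
  have hc : ContinuousOn (fun y => (ψ y)⁻¹) {y : ℂ | r - δ / 2 ≤ ‖y - x0‖ ∧ ‖y - x0‖ ≤ r + δ / 2} :=
    ContinuousOn.inv₀ (hd.continuousOn.mono fun y hy =>
      ⟨by linarith [hy.1, b1.1], by linarith [hy.2, b2.2]⟩) hne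
  obtain ⟨B, hB⟩ := (hK _ _).exists_bound_of_continuousOn hc
  refine ⟨r - δ / 2, r + δ / 2, (max B 1)⁻¹, by linarith [b1.1], by linarith, by linarith [b2.2],
    by positivity, fun x e1 e2 => ?_⟩
  have e3 := hB x ⟨e1.le, e2.le⟩
  rw [norm_inv] at e3
  exact inv_le_of_inv_le₀ (norm_pos_iff.mpr (hne x ⟨e1.le, e2.le⟩)) (e3.trans (le_max_left _ _))

/-- Two holomorphic pieces that agree on the overlap. -/
lemma glue {P Q : ℂ → ℂ} {x0 : ℂ} {r1 r2 : ℝ} (h12 : r1 < r2)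
    (h : ∀ a : ℂ, r1 * ‖a‖ < ‖1 - a * x0‖ → ‖1 - a * x0‖ < r2 * ‖a‖ → P a = Q a) {l : ℂ}
    (hP : r1 * ‖l‖ < ‖1 - l * x0‖ → DifferentiableAt ℂ P l)
    (hQ : ‖1 - l * x0‖ < r2 * ‖l‖ → DifferentiableAt ℂ Q l) :
    DifferentiableAt ℂ (fun a => if r1 * ‖a‖ < ‖1 - a * x0‖ then P a else Q a) l := by
  have c1 : Continuous fun a : ℂ => ‖1 - a * x0‖ := by fun_prop
  have c2 : ∀ r : ℝ, Continuous fun a : ℂ => r * ‖a‖ := fun r => by fun_prop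
  by_cases hl : r1 * ‖l‖ < ‖1 - l * x0‖
  · refine (hP hl).congr_of_eventuallyEq ?_
    filter_upwards [(isOpen_lt (c2 r1) c1).mem_nhds hl] with a ha
    exact if_pos ha
  · have hl0 : l ≠ 0 := by
      rintro rfl
      norm_num at hl
    have hl2 : ‖1 - l * x0‖ < r2 * ‖l‖ :=
      (not_lt.mp hl).trans_lt (mul_lt_mul_of_pos_right h12 (norm_pos_iff.mpr hl0))
    refine (hQ hl2).congr_of_eventuallyEq ?_
    filter_upwards [(isOpen_lt c1 (c2 r2)).mem_nhds hl2] with a ha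
    split_ifs with h1
    · exact h a h1 ha
    · rfl

end Pool.Agent.Lib.MP_435399_an.CV
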