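import Mathlib
import Pool.Agent.Lib.MP_435399_an.ZO.HB

set_option autoImplicit false

open MeasureTheory Set Metric Real Complex Filter Topology ComplexConjugate

namespace Pool.Agent.Lib.MP_435399_an.CV

open Pool.Agent.Lib.MP_435399_an

/-- A pair of functionals, one on the disc and one on `Γ`, that annihilates all kernels. -/
theorem exists_pair' {z : ℕ → ℂ} (hz : ∀ n, ‖z n‖ < 1) {Γ : Set ℂ}
    (hb : ∀ n, ∃ C : ℝ, ∀ w ∈ Γ, ‖((1 - z n * w) ^ 2)⁻¹‖ ≤ C)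
    {u : ℂ → ℂ} (hd : DifferentiableOn ℂ u (ball 0 1)) (hm : MemLp u 2 μD)
    {χ : ℂ → ℂ} (hχ : ∃ C : ℝ, ∀ w ∈ Γ, ‖χ w‖ ≤ C) {ε : ℝ} (hε : 0 < ε)
    (hfar : ∀ (s : Finset ℕ) (a : ℕ → ℂ), (∀ w ∈ Γ, ‖χ w - comb z s a w‖ ≤ ε) →
      ε ≤ ∫ w, ‖u w - comb z s a w‖ ^ 2 ∂μD) :
    ∃ (g : ℂ → ℂ) (L : (ℂ → ℂ) →ₗ[ℂ] ℂ) (N : ℝ), DifferentiableOn ℂ g (ball 0 1) ∧
      MemLp g 2 μD ∧ ((∀ w ∈ ball (0 : ℂ) 1, g w = 0) → L (fun x => conj (χ (conj x))) ≠ 0) ∧
      0 ≤ N ∧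
      (∀ (ψ : ℂ → ℂ) (C : ℝ), 0 ≤ C → (∀ w ∈ Γ, ‖ψ (conj w)‖ ≤ C) → ‖L ψ‖ ≤ N * C) ∧
      ∀ n, g (conj (z n)) + L (fun x => ((1 - conj (z n) * x) ^ 2)⁻¹) = 0 := by
  have hmem : ∀ (ψ : ℂ → ℂ) (C : ℝ), (∀ w ∈ Γ, ‖ψ w‖ ≤ C) → Memℓp (fun w : Γ => ψ w) ⊤ :=
    fun ψ C h => memℓp_infty ⟨C, by rintro _ ⟨w, rfl⟩; exact h w w.2⟩
  let B : Submodule ℂ (ℂ → ℂ) :=
    { carrier := {ψ | Memℓp (fun w : Γ => ψ w) ⊤}
      add_mem' := fun {ψ χ} h1 h2 => Memℓp.add (E := fun _ : Γ => ℂ) (p := ⊤)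
        (f := fun w : Γ => ψ w) (g := fun w : Γ => χ w) h1 h2
      zero_mem' := zero_memℓp (E := fun _ : Γ => ℂ) (p := ⊤)
      smul_mem' := fun c ψ h =>
        Memℓp.const_smul (E := fun _ : Γ => ℂ) (p := ⊤) (f := fun w : Γ => ψ w) h c }
  let R : B →ₗ[ℂ] lp (fun _ : Γ => ℂ) ⊤ :=
    { toFun := fun ψ => ⟨fun w : Γ => ψ.1 w, ψ.2⟩
      map_add' := fun _ _ => rfl
      map_smul' := fun _ _ => rfl }
  have hkB : ∀ n, (fun w => ((1 - z n * w) ^ 2)⁻¹) ∈ B := fun n =>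
    (hb n).elim fun C h => hmem _ C h
  let kk : ℕ → Lp ℂ 2 μD × lp (fun _ : Γ => ℂ) ⊤ := fun n =>
    ((kernel_memLp (hz n)).toLp _, R ⟨_, hkB n⟩)
  have hrep : ∀ x ∈ Submodule.span ℂ (range kk), ∃ (s : Finset ℕ) (a : ℕ → ℂ),
      x.1 =ᵐ[μD] comb z s a ∧ ∀ w : Γ, x.2 w = comb z s a w := by
    intro x hx
    obtain ⟨c, rfl⟩ := Finsupp.mem_span_range_iff_exists_finsupp.mp hx
    refine ⟨c.support, c, ?_, fun w => ?_⟩
    · unfold Finsupp.sum
      rw [Prod.fst_sum]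
      have h1 : ∀ᵐ w ∂μD, ∀ n, (c n • kk n).1 w = c n * ((1 - z n * w) ^ 2)⁻¹ := by
        rw [ae_all_iff]
        intro n
        filter_upwards [Lp.coeFn_smul (c n) (kk n).1, (kernel_memLp (hz n)).coeFn_toLp]
          with w e1 e2
        rw [Prod.smul_fst, e1, Pi.smul_apply, e2, smul_eq_mul]
      filter_upwards [Lp.coeFn_finsetSum c.support (fun n => (c n • kk n).1), h1] with w e1 e2
      rw [e1, Finset.sum_apply]
      exact Finset.sum_congr rfl fun n _ => e2 n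
    · unfold Finsupp.sum
      rw [Prod.snd_sum, lp.coeFn_sum, Finset.sum_apply]
      rfl
  have hχB : χ ∈ B := hχ.elim fun C h => hmem _ C h
  have hx : (hm.toLp u, R ⟨χ, hχB⟩) ∉
      closure (Submodule.span ℂ (range kk) : Set _) := by
    intro h
    obtain ⟨x, hx, hlt⟩ := Metric.mem_closure_iff.mp h (min ε (√ε))
      (lt_min hε (Real.sqrt_pos.mpr hε))
    obtain ⟨s, a, e1, e2⟩ := hrep x hx
    rw [Prod.dist_eq, max_lt_iff, lt_min_iff, lt_min_iff, dist_eq_norm, dist_eq_norm] at hlt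
    have h1 := hfar s a fun w hw => by
      rw [← e2 ⟨w, hw⟩]
      exact (lp.norm_apply_le_norm ENNReal.top_ne_zero (R ⟨χ, hχB⟩ - x.2) ⟨w, hw⟩).trans hlt.2.1.le
    have h2 : ∫ w, ‖u w - comb z s a w‖ ^ 2 ∂μD = ‖hm.toLp u - x.1‖ ^ 2 := by
      rw [norm_sq_L2]
      refine integral_congr_ae ?_
      filter_upwards [Lp.coeFn_sub (hm.toLp u) x.1, hm.coeFn_toLp, e1] with w e3 e4 e5
      rw [e3, Pi.sub_apply, e4, e5]
    have h3 : ‖hm.toLp u - x.1‖ ^ 2 < √ε ^ 2 :=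
      pow_lt_pow_left₀ hlt.1.2 (norm_nonneg _) two_ne_zero
    rw [Real.sq_sqrt hε.le] at h3
    linarith
  obtain ⟨Φ, hΦ, hΦx⟩ := ZO.exists_sep _ hx
  obtain ⟨g, hgd, hgm, hg⟩ := ZO.exists_rep (Φ.comp (ContinuousLinearMap.inl ℂ _ _))
  let Φ2 := Φ.comp (ContinuousLinearMap.inr ℂ (Lp ℂ 2 μD) (lp (fun _ : Γ => ℂ) ⊤))
  obtain ⟨Λ, hΛ⟩ := LinearMap.exists_extend (Φ2.toLinearMap.comp R)
  have hΛ' : ∀ ψ (h : ψ ∈ B), Λ ψ = Φ2 (R ⟨ψ, h⟩) := fun ψ h =>
    LinearMap.congr_fun hΛ ⟨ψ, h⟩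
  let L : (ℂ → ℂ) →ₗ[ℂ] ℂ :=
    { toFun := fun ψ => (π : ℂ)⁻¹ * conj (Λ fun w => conj (ψ (conj w)))
      map_add' := fun ψ χ => by
        have : (fun w => conj ((ψ + χ) (conj w))) =
            (fun w => conj (ψ (conj w))) + fun w => conj (χ (conj w)) := by
          ext w
          simp
        rw [this, map_add, map_add, mul_add]
      map_smul' := fun c ψ => by
        have : (fun w => conj ((c • ψ) (conj w))) = conj c • fun w => conj (ψ (conj w)) := by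
          ext w
          simp
        rw [this, map_smul]
        simp only [smul_eq_mul, map_mul, Complex.conj_conj, RingHom.id_apply]
        ring }
  have hπ : (π : ℂ) ≠ 0 := by exact_mod_cast pi_ne_zero
  refine ⟨g, L, π⁻¹ * ‖Φ2‖, hgd, hgm, ?_, by positivity, fun ψ C hC h => ?_, fun n => ?_⟩
  · intro hc h0
    have h1 : Φ.comp (ContinuousLinearMap.inl ℂ _ _) (hm.toLp u) = 0 := by
      refine (hg u hd hm).trans ?_
      rw [integral_eq_zero_of_ae, map_zero]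
      filter_upwards [ae_restrict_mem measurableSet_ball] with w e
      rw [hc w e, zero_mul, Pi.zero_apply]
    have h2 : (π : ℂ)⁻¹ * conj (Λ fun w => conj (conj (χ (conj (conj w))))) = 0 := h0
    simp only [Complex.conj_conj, mul_eq_zero, inv_eq_zero, hπ, false_or, map_eq_zero] at h2
    have h3 : Φ2 (R ⟨χ, hχB⟩) = 0 := (hΛ' χ hχB).symm.trans h2
    have h4 : Φ (hm.toLp u, R ⟨χ, hχB⟩) = Φ.comp (ContinuousLinearMap.inl ℂ _ _) (hm.toLp u) +
        Φ2 (R ⟨χ, hχB⟩) := by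
      simp only [Φ2, ContinuousLinearMap.comp_apply, ContinuousLinearMap.inl_apply,
        ContinuousLinearMap.inr_apply, ← map_add, Prod.mk_add_mk, add_zero, zero_add]
    exact hΦx (by rw [h4, h1, h3, add_zero])
  · have h1 : ∀ w ∈ Γ, ‖conj (ψ (conj w))‖ ≤ C := fun w hw => by
      rw [Complex.norm_conj]
      exact h w hw
    show ‖(π : ℂ)⁻¹ * conj (Λ fun w => conj (ψ (conj w)))‖ ≤ _
    rw [norm_mul, norm_inv, Complex.norm_real, Real.norm_of_nonneg pi_pos.le, Complex.norm_conj,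
      hΛ' _ (hmem _ C h1), mul_assoc]
    refine mul_le_mul_of_nonneg_left (Φ2.le_of_opNorm_le_of_le le_rfl ?_) (inv_nonneg.mpr pi_pos.le)
    exact lp.norm_le_of_forall_le hC fun w => h1 w w.2
  · have h1 := hΦ (kk n) (Submodule.subset_span ⟨n, rfl⟩)
    have h2 := hg _ (kernel_differentiableOn (hz n)) (kernel_memLp (hz n))
    have h3 : ∫ w, g w * conj ((1 - z n * w) ^ 2)⁻¹ ∂μD = π * g (conj (z n)) := by
      rw [← reproducing hgd (hgm.integrable one_le_two)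
        (show ‖conj (z n)‖ < 1 by rw [Complex.norm_conj]; exact hz n)]
      simp
    have h4 : Φ (kk n) = Φ.comp (ContinuousLinearMap.inl ℂ _ _) ((kernel_memLp (hz n)).toLp _) +
        Φ2 (R ⟨_, hkB n⟩) := by
      simp only [Φ2, ContinuousLinearMap.comp_apply, ContinuousLinearMap.inl_apply,
        ContinuousLinearMap.inr_apply, ← map_add, Prod.mk_add_mk, add_zero, zero_add, kk]
    rw [h4, h2, h3, ← hΛ'] at h1
    have h5 : (fun w => conj ((fun x => ((1 - conj (z n) * x) ^ 2)⁻¹) (conj w))) =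
        fun w => ((1 - z n * w) ^ 2)⁻¹ := by
      ext w
      simp
    show _ + (π : ℂ)⁻¹ * conj (Λ fun w => conj ((fun x => ((1 - conj (z n) * x) ^ 2)⁻¹) (conj w))) = 0
    rw [h5]
    have h6 := congrArg conj h1
    rw [map_add, Complex.conj_conj, map_zero] at h6
    generalize conj (Λ fun w => ((1 - z n * w) ^ 2)⁻¹) = t at h6 ⊢
    field_simp
    linear_combination h6

lemma geom_two (u : ℂ) (k : ℕ) : (∑ j ∈ Finset.range k, ((j : ℂ) + 1) * u ^ j) * (1 - u) ^ 2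
    = 1 - (k + 1) * u ^ k + k * u ^ (k + 1) := by
  induction k with
  | zero => simp
  | succ k ih =>
    rw [Finset.sum_range_succ, add_mul, ih]
    push_cast
    ring

/-- If the outer transform vanishes near the origin, the functional kills all powers. -/
lemma pow_zero_of_M {Γ : Set ℂ} {B N : ℝ} {L : (ℂ → ℂ) →ₗ[ℂ] ℂ} (hΓ : ∀ x ∈ Γ, ‖x‖ ≤ B)
    (hL : ∀ (ψ : ℂ → ℂ) (C : ℝ), 0 ≤ C → (∀ x ∈ Γ, ‖ψ x‖ ≤ C) → ‖L ψ‖ ≤ N * C)
    (hM : ∀ᶠ a : ℂ in 𝓝 0, L (fun x => ((1 - a * x) ^ 2)⁻¹) = 0) (k : ℕ) :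
    L (fun x => x ^ k) = 0 := by
  induction k using Nat.strong_induction_on with
  | _ k ih =>
  have hk : ((k : ℂ) + 1) ≠ 0 := by exact_mod_cast Nat.succ_ne_zero k
  have ht : Tendsto (fun a : ℂ => N * (‖a‖ * |B| ^ (k + 1) * (2 * k + 3) / (1 / 2) ^ 2)) (𝓝[≠] 0)
      (𝓝 0) := by
    have : Continuous fun a : ℂ => N * (‖a‖ * |B| ^ (k + 1) * (2 * k + 3) / (1 / 2) ^ 2) := by
      fun_prop
    simpa using (this.tendsto 0).mono_left nhdsWithin_le_nhds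
  have hs : ∀ᶠ a : ℂ in 𝓝 0, ‖a‖ * |B| < 1 / 2 :=
    (by fun_prop : Continuous fun a : ℂ => ‖a‖ * |B|).continuousAt.eventually_lt_const (by simp)
  have key : ‖((k : ℂ) + 1) * L (fun x => x ^ k)‖ ≤ 0 := by
    refine ge_of_tendsto ht ?_
    filter_upwards [self_mem_nhdsWithin, hM.filter_mono nhdsWithin_le_nhds,
      hs.filter_mono nhdsWithin_le_nhds] with a ha h1 h2
    have ha0 : a ≠ 0 := ha
    have e1 : L (fun x => ∑ j ∈ Finset.range k, ((j : ℂ) + 1) * (a * x) ^ j) = 0 := by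
      have : (fun x => ∑ j ∈ Finset.range k, ((j : ℂ) + 1) * (a * x) ^ j) =
          ∑ j ∈ Finset.range k, (((j : ℂ) + 1) * a ^ j) • fun x : ℂ => x ^ j := by
        ext x
        simp only [Finset.sum_apply, Pi.smul_apply, smul_eq_mul, mul_pow, mul_assoc]
      rw [this, map_sum]
      exact Finset.sum_eq_zero fun j hj => by rw [map_smul, ih j (Finset.mem_range.mp hj), smul_zero]
    have e2 : ((k : ℂ) + 1) * L (fun x => x ^ k) = L (fun x => ((k : ℂ) + 1) * x ^ k - (a ^ k)⁻¹ *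
        (((1 - a * x) ^ 2)⁻¹ - ∑ j ∈ Finset.range k, ((j : ℂ) + 1) * (a * x) ^ j)) := by
      have : (fun x => ((k : ℂ) + 1) * x ^ k - (a ^ k)⁻¹ *
        (((1 - a * x) ^ 2)⁻¹ - ∑ j ∈ Finset.range k, ((j : ℂ) + 1) * (a * x) ^ j)) =
        (((k : ℂ) + 1) • fun x : ℂ => x ^ k) - (a ^ k)⁻¹ • ((fun x => ((1 - a * x) ^ 2)⁻¹) -
          fun x => ∑ j ∈ Finset.range k, ((j : ℂ) + 1) * (a * x) ^ j) := rfl
      rw [this, map_sub, map_smul, map_smul, map_sub, h1, e1]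
      simp
    rw [e2]
    refine hL _ _ (by positivity) fun x hx => ?_
    have b1 : ‖x‖ ≤ |B| := (hΓ x hx).trans (le_abs_self _)
    have b2 : ‖a * x‖ ≤ 1 / 2 := by
      rw [norm_mul]
      exact (mul_le_mul_of_nonneg_left b1 (norm_nonneg _)).trans h2.le
    have b3 : 1 / 2 ≤ ‖1 - a * x‖ := by
      have := norm_sub_norm_le 1 (a * x)
      rw [norm_one] at this
      linarith
    have n1 : 1 - a * x ≠ 0 := norm_pos_iff.mp (lt_of_lt_of_le (by norm_num) b3)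
    have e3 : ((k : ℂ) + 1) * x ^ k - (a ^ k)⁻¹ *
        (((1 - a * x) ^ 2)⁻¹ - ∑ j ∈ Finset.range k, ((j : ℂ) + 1) * (a * x) ^ j) =
        a * x ^ (k + 1) * ((k + 1) * (a * x) - (k + 2)) / (1 - a * x) ^ 2 := by
      rw [(eq_div_iff (pow_ne_zero 2 n1)).mpr (geom_two (a * x) k), pow_succ (a * x) k, mul_pow a x k,
        pow_succ x k]
      have := pow_ne_zero k ha0
      generalize a ^ k = u at this ⊢
      generalize x ^ k = v
      field_simp
      ring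
    rw [e3, norm_div, norm_mul, norm_mul, norm_pow, norm_pow]
    have b4 : ‖((k : ℂ) + 1) * (a * x) - (k + 2)‖ ≤ 2 * k + 3 := by
      refine (norm_sub_le _ _).trans ?_
      have c1 : ‖(k : ℂ) + 1‖ = k + 1 := by exact_mod_cast Complex.norm_natCast (k + 1)
      have c2 : ‖(k : ℂ) + 2‖ = k + 2 := by exact_mod_cast Complex.norm_natCast (k + 2)
      rw [norm_mul, c1, c2]
      have : (0 : ℝ) ≤ k := Nat.cast_nonneg k
      nlinarith
    gcongr
  exact (mul_eq_zero.mp (norm_le_zero_iff.mp key)).resolve_left hk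

lemma shift_zero {L : (ℂ → ℂ) →ₗ[ℂ] ℂ} (h : ∀ k : ℕ, L (fun x => x ^ k) = 0) (x0 : ℂ) (k : ℕ) :
    ∀ j : ℕ, L (fun x => x ^ j * (x - x0) ^ k) = 0 := by
  induction k with
  | zero => simpa using h
  | succ k ih =>
    intro j
    have : (fun x : ℂ => x ^ j * (x - x0) ^ (k + 1)) =
        (fun x : ℂ => x ^ (j + 1) * (x - x0) ^ k) - x0 • fun x : ℂ => x ^ j * (x - x0) ^ k := by
      ext x
      simp only [Pi.sub_apply, Pi.smul_apply, smul_eq_mul]
      ring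
    rw [this, map_sub, map_smul, ih, ih, smul_zero, sub_zero]

/-- A functional that kills all powers kills every function holomorphic on a larger disc. -/
lemma holo_zero {c0 : ℂ} {ρ ρ' N : ℝ} {L : (ℂ → ℂ) →ₗ[ℂ] ℂ} (hρ : 0 < ρ) (hρ' : ρ < ρ')
    (hL : ∀ (ψ : ℂ → ℂ) (C : ℝ), 0 ≤ C → (∀ w ∈ sphere c0 ρ, ‖ψ (conj w)‖ ≤ C) → ‖L ψ‖ ≤ N * C)
    (h : ∀ k : ℕ, L (fun x => x ^ k) = 0) {χ : ℂ → ℂ}
    (hχ : DifferentiableOn ℂ χ (closedBall c0 ρ')) : L (fun x => conj (χ (conj x))) = 0 := by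
  lift ρ' to NNReal using (by linarith) with R
  set r : NNReal := ⟨(ρ + R) / 2, by positivity⟩ with hr
  have hrR : r < R := by
    rw [← NNReal.coe_lt_coe]
    show (ρ + R) / 2 < R
    linarith
  have hp := hχ.hasFPowerSeriesOnBall (show 0 < R from NNReal.coe_pos.mp (by linarith))
  have hu := Metric.tendstoUniformlyOn_iff.mp (hp.tendstoUniformlyOn (r' := r) (by exact_mod_cast hrR))
  set p := cauchyPowerSeries χ c0 R
  have key : ∀ e : ℝ, 0 < e → ‖L (fun x => conj (χ (conj x)))‖ ≤ N * e := by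
    intro e he
    obtain ⟨n, hn⟩ := (hu e he).exists
    have e1 : L (fun x => ∑ k ∈ Finset.range n, conj (p.coeff k) * (x - conj c0) ^ k) = 0 := by
      have : (fun x => ∑ k ∈ Finset.range n, conj (p.coeff k) * (x - conj c0) ^ k) =
          ∑ k ∈ Finset.range n, conj (p.coeff k) • fun x : ℂ => x ^ 0 * (x - conj c0) ^ k := by
        ext x
        simp only [Finset.sum_apply, Pi.smul_apply, smul_eq_mul, pow_zero, one_mul]
      rw [this, map_sum]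
      exact Finset.sum_eq_zero fun k _ => by rw [map_smul, shift_zero h, smul_zero]
    rw [← sub_zero (L _), ← e1, ← map_sub]
    refine hL _ _ he.le fun w hw => ?_
    have hw' : ‖w - c0‖ = ρ := by simpa [dist_eq_norm] using hw
    have h1 := hn (w - c0) (by
      rw [mem_ball_zero_iff, hw']
      show ρ < (ρ + R) / 2
      linarith)
    rw [add_sub_cancel, dist_eq_norm, ← Complex.norm_conj] at h1
    refine le_of_eq_of_le ?_ h1.le
    congr 1
    simp [FormalMultilinearSeries.partialSum, mul_comm]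
  have ht : Tendsto (fun e : ℝ => N * e) (𝓝[>] 0) (𝓝 0) := by
    have : Continuous fun e : ℝ => N * e := by fun_prop
    simpa using (this.tendsto 0).mono_left nhdsWithin_le_nhds
  exact norm_le_zero_iff.mp (ge_of_tendsto ht (eventually_nhdsWithin_of_forall key))

end Pool.Agent.Lib.MP_435399_an.CV
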