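import Mathlib
import Pool.Agent.Lib.MP_435399_an.CV.Clean
import Pool.Agent.Lib.MP_435399_an.CV.Pair

set_option autoImplicit false

open MeasureTheory Set Metric Real Complex Filter Topology ComplexConjugate

namespace Pool.Agent.Lib.MP_435399_an.CV

open Pool.Agent.Lib.MP_435399_an

lemma inv_mem {a x0 : ℂ} {r1 r2 : ℝ} (h1 : r1 * ‖a‖ < ‖1 - a * x0‖) (h2 : ‖1 - a * x0‖ < r2 * ‖a‖) :
    r1 < ‖a⁻¹ - x0‖ ∧ ‖a⁻¹ - x0‖ < r2 := by
  have ha : a ≠ 0 := by
    rintro rfl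
    norm_num at h2
  have hx := norm_inv_sub (x0 := x0) (inv_ne_zero ha)
  rw [inv_inv] at hx
  rw [hx] at h1 h2
  exact ⟨lt_of_mul_lt_mul_right h1 (norm_nonneg _), lt_of_mul_lt_mul_right h2 (norm_nonneg _)⟩

lemma outer_lt {a x0 : ℂ} {r1 r : ℝ} (h : r1 < r) (h1 : r * ‖a‖ ≤ ‖1 - a * x0‖) :
    r1 * ‖a‖ < ‖1 - a * x0‖ := by
  rcases eq_or_ne a 0 with rfl | ha
  · norm_num
  · exact (mul_lt_mul_of_pos_right h (norm_pos_iff.mpr ha)).trans_le h1

/-- Removing the outer part by a multiplicative splitting on a thin annulus. -/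
theorem exists_zero_fun {x0 : ℂ} {ρ ρ' N : ℝ} {L : (ℂ → ℂ) →ₗ[ℂ] ℂ} {g : ℂ → ℂ} (hρ : 0 < ρ)
    (hρ' : ρ < ρ') (hx0 : 1 + ρ' < ‖x0‖) (hN : 0 ≤ N)
    (hL : ∀ (ψ : ℂ → ℂ) (C : ℝ), 0 ≤ C → (∀ x ∈ sphere x0 ρ, ‖ψ x‖ ≤ C) → ‖L ψ‖ ≤ N * C)
    (hgd : DifferentiableOn ℂ g (ball 0 1)) (hgm : MemLp g 2 μD)
    (hg : (∀ w ∈ ball (0 : ℂ) 1, g w = 0) →
      ¬ ∀ᶠ a : ℂ in 𝓝 0, L (fun x => ((1 - a * x) ^ 2)⁻¹) = 0) :
    ∃ H : ℂ → ℂ, DifferentiableOn ℂ H (ball 0 1) ∧ MemLp H 2 μD ∧ (∃ w ∈ ball (0 : ℂ) 1, H w ≠ 0) ∧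
      ∀ a : ℂ, ρ' * ‖a‖ ≤ ‖1 - a * x0‖ → g a + L (fun x => ((1 - a * x) ^ 2)⁻¹) = 0 → H a = 0 := by
  set M : ℂ → ℂ := fun a => L (fun x => ((1 - a * x) ^ 2)⁻¹) with hMd
  have hM : ∀ l : ℂ, ρ * ‖l‖ < ‖1 - l * x0‖ → DifferentiableAt ℂ M l :=
    fun l hl => differentiableAt_M hL hl
  have hg' : ∀ l : ℂ, ‖l‖ < 1 → DifferentiableAt ℂ g l := fun l hl =>
    hgd.differentiableAt (isOpen_ball.mem_nhds (mem_ball_zero_iff.mpr hl))
  have hx1 : ∀ x : ℂ, ‖x - x0‖ < ρ' → 1 < ‖x‖ := fun x hx => by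
    have := norm_sub_norm_le x0 x
    rw [norm_sub_rev] at this
    linarith
  have hxne : ∀ x : ℂ, ‖x - x0‖ < ρ' → x ≠ 0 := fun x hx =>
    norm_pos_iff.mp (one_pos.trans (hx1 x hx))
  have hxi : ∀ x : ℂ, ‖x - x0‖ < ρ' → ‖x⁻¹‖ < 1 := fun x hx => by
    rw [norm_inv]
    exact inv_lt_one_of_one_lt₀ (hx1 x hx)
  have hxo : ∀ (x : ℂ) (r : ℝ), r < ‖x - x0‖ → ‖x - x0‖ < ρ' → r * ‖x⁻¹‖ < ‖1 - x⁻¹ * x0‖ :=
    fun x r e1 e2 => by
      rw [norm_inv_sub (hxne x e2)]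
      exact mul_lt_mul_of_pos_right e1 (norm_pos_iff.mpr (inv_ne_zero (hxne x e2)))
  have hcomp : ∀ (F : ℂ → ℂ) (x : ℂ), ‖x - x0‖ < ρ' → DifferentiableAt ℂ F x⁻¹ →
      DifferentiableAt ℂ (fun y => F y⁻¹) x := fun F x e h =>
    h.comp x (differentiableAt_inv (hxne x e))
  have hψ : ∀ x, ρ < ‖x - x0‖ → ‖x - x0‖ < ρ' →
      DifferentiableAt ℂ (fun y : ℂ => g y⁻¹ + M y⁻¹) x := fun x e1 e2 =>
    (hcomp g x e2 (hg' _ (hxi x e2))).add (hcomp M x e2 (hM _ (hxo x ρ e1 e2)))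
  rcases thin_annulus hρ.le hρ' hψ with h | ⟨r0, r3, μ, h0, h03, h3, hμ, hlow⟩
  · exfalso
    have hE : Differentiable ℂ (fun a => if ρ * ‖a‖ < ‖1 - a * x0‖ then -M a else g a) := fun l =>
      glue (P := fun a => -M a) hρ' (fun a e1 e2 => by
        have := h a⁻¹ (inv_mem e1 e2).1 (inv_mem e1 e2).2
        rw [inv_inv] at this
        linear_combination -this) (fun e => (hM l e).neg) (fun e => hg' l (inner_lt_one hx0 e.le))
    have hM0 : Tendsto M (cocompact ℂ) (𝓝 0) := ZO.tendsto_M (Γ := sphere x0 ρ) le_rfl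
      (fun x hx => (hx1 x (by
        have : ‖x - x0‖ = ρ := by simpa [dist_eq_norm] using hx
        linarith)).le) hL
    have ht : Tendsto (fun a => if ρ * ‖a‖ < ‖1 - a * x0‖ then -M a else g a) (cocompact ℂ)
        (𝓝 0) := by
      have h1 := hM0.neg
      rw [neg_zero] at h1
      refine h1.congr' ?_
      filter_upwards [(tendsto_norm_cocompact_atTop (E := ℂ)).eventually_ge_atTop 1] with u hu
      rw [if_pos]
      by_contra hc
      exact absurd (inner_lt_one (by linarith) (not_lt.mp hc)) (not_lt.mpr hu)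
    have hx00 : ‖x0 - x0‖ < ρ' := by rw [sub_self, norm_zero]; linarith
    have hz : g =ᶠ[𝓝 x0⁻¹] 0 := by
      have c1 : Continuous fun a : ℂ => ‖1 - a * x0‖ := by fun_prop
      have c2 : Continuous fun a : ℂ => ρ * ‖a‖ := by fun_prop
      have : ‖1 - x0⁻¹ * x0‖ < ρ * ‖x0⁻¹‖ := by
        rw [inv_mul_cancel₀ (hxne _ hx00), sub_self, norm_zero]
        exact mul_pos hρ (norm_pos_iff.mpr (inv_ne_zero (hxne _ hx00)))
      filter_upwards [(isOpen_lt c1 c2).mem_nhds this] with a ha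
      have h2 := hE.apply_eq_of_tendsto_cocompact a ht
      rwa [if_neg (not_lt.mpr (le_of_lt ha))] at h2
    refine hg (fun w hw =>
      (hgd.analyticOnNhd isOpen_ball).eqOn_zero_of_preconnected_of_eventuallyEq_zero
      (convex_ball 0 1).isPreconnected (mem_ball_zero_iff.mpr (hxi _ hx00)) hz hw) ?_
    have c1 : Continuous fun a : ℂ => ‖1 - a * x0‖ := by fun_prop
    have c2 : Continuous fun a : ℂ => ρ * ‖a‖ := by fun_prop
    filter_upwards [(isOpen_lt c2 c1).mem_nhds (show ρ * ‖(0 : ℂ)‖ < ‖1 - 0 * x0‖ by norm_num)]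
      with a ha
    have h2 := hE.apply_eq_of_tendsto_cocompact a ht
    rw [if_pos ha] at h2
    exact neg_eq_zero.mp h2
  have hc : 0 < (‖x0‖ + ρ')⁻¹ := inv_pos.mpr (by linarith [norm_nonneg x0])
  obtain ⟨m, p, hp, happ⟩ := exists_approx hρ hN hL h0 hc (half_pos hμ)
  set e : ℂ → ℂ := fun a => -((M a - p a / (1 - a * x0) ^ m) / (g a + M a)) with he
  have hA : ∀ x, r0 < ‖x - x0‖ → ‖x - x0‖ < r3 → 1 - x⁻¹ * x0 ≠ 0 := fun x e1 e2 =>
    norm_pos_iff.mp (lt_of_le_of_lt (by positivity) (hxo x ρ (by linarith) (by linarith)))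
  have hψ0 : ∀ x, r0 < ‖x - x0‖ → ‖x - x0‖ < r3 → g x⁻¹ + M x⁻¹ ≠ 0 := fun x e1 e2 =>
    norm_pos_iff.mp (hμ.trans_le (hlow x e1 e2))
  have hsl : ∀ x, r0 < ‖x - x0‖ → ‖x - x0‖ < r3 → 1 + e x⁻¹ ∈ slitPlane := by
    intro x e1 e2
    refine mem_slitPlane_of_norm_lt_one ?_
    have e3 : ‖x - x0‖ < ρ' := by linarith
    have h1 := happ x⁻¹ (by
      rw [norm_inv]
      refine inv_anti₀ (one_pos.trans (hx1 x e3)) ?_
      linarith [norm_sub_norm_le x x0]) (hxo x r0 e1 e3).le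
    have h2 := hlow x e1 e2
    simp only [he]
    rw [norm_neg, norm_div, div_lt_one (hμ.trans_le h2)]
    linarith
  set φ : ℂ → ℂ := fun x => Complex.log (1 + e x⁻¹) with hφd
  have hφ : ∀ x, r0 < ‖x - x0‖ → ‖x - x0‖ < r3 → DifferentiableAt ℂ φ x := by
    intro x e1 e2
    have e3 : ‖x - x0‖ < ρ' := by linarith
    have d1 := hM _ (hxo x ρ (by linarith) e3)
    have d2 := hg' _ (hxi x e3)
    refine DifferentiableAt.clog ((hcomp e x e3 ?_).const_add 1) (hsl x e1 e2)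
    have d3 : DifferentiableAt ℂ (fun a : ℂ => (1 - a * x0) ^ m) x⁻¹ := by fun_prop
    exact ((d1.sub ((hp _).div d3 (pow_ne_zero m (hA x e1 e2)))).div (d2.add d1)
      (hψ0 x e1 e2)).neg
  set r1 := (2 * r0 + r3) / 3 with hr1
  set r2 := (r0 + 2 * r3) / 3 with hr2
  set r := (r0 + r3) / 2 with hr
  have hφc : ∀ s, r0 < s → s < r3 → ContinuousOn φ (sphere x0 s) := fun s e1 e2 y hy => by
    have : ‖y - x0‖ = s := by simpa [dist_eq_norm] using hy
    exact (hφ y (by linarith) (by linarith)).continuousAt.continuousWithinAt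
  have hW : ∀ l : ℂ, r1 * ‖l‖ < ‖1 - l * x0‖ → DifferentiableAt ℂ
      (fun a => (1 - a * x0) ^ m * Complex.exp (cau φ x0 r1 a)) l := fun l hl =>
    DifferentiableAt.mul (by fun_prop)
      (differentiableAt_cau (by linarith) (hφc r1 (by linarith) (by linarith)) hl.ne').cexp
  set H : ℂ → ℂ := fun a => if r1 * ‖a‖ < ‖1 - a * x0‖ then
    (1 - a * x0) ^ m * Complex.exp (cau φ x0 r1 a) * (g a + M a) else
    ((1 - a * x0) ^ m * g a + p a) * Complex.exp (cau φ x0 r2 a) with hH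
  have hHd : ∀ l : ℂ, ‖l‖ < 1 → DifferentiableAt ℂ H l := by
    intro l hl
    refine glue (r2 := r2) (by linarith) (fun a e1 e2 => ?_)
      (fun e => (hW l e).mul ((hg' l hl).add (hM l (outer_lt (by linarith) e.le))))
      (fun e => (DifferentiableAt.add (DifferentiableAt.mul (by fun_prop) (hg' l hl)) (hp l)).mul
        (differentiableAt_cau (by linarith) (hφc r2 (by linarith) (by linarith)) e.ne).cexp)
    have hs := split (r0 := r0) (r3 := r3) (by linarith) (by linarith) (by linarith) hφ e1 e2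
    obtain ⟨i1, i2⟩ := inv_mem e1 e2
    have k1 := hA a⁻¹ (by linarith) (by linarith)
    have k2 := hψ0 a⁻¹ (by linarith) (by linarith)
    have k3 := Complex.exp_log (slitPlane_ne_zero (hsl a⁻¹ (by linarith) (by linarith)))
    rw [inv_inv] at k1 k2
    have k4 : cau φ x0 r1 a = φ a⁻¹ + cau φ x0 r2 a := by rw [hs]; ring
    rw [k4, Complex.exp_add, hφd]
    beta_reduce
    rw [k3, inv_inv, he]
    have k5 := pow_ne_zero m k1
    beta_reduce
    generalize (1 - a * x0) ^ m = u at k5 ⊢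
    field_simp
    ring
  have hHD : DifferentiableOn ℂ H (ball 0 1) := fun l hl =>
    (hHd l (mem_ball_zero_iff.mp hl)).differentiableWithinAt
  have c1 : Continuous fun a : ℂ => ‖1 - a * x0‖ := by fun_prop
  have c2 : Continuous fun a : ℂ => r * ‖a‖ := by fun_prop
  have hK1 := (isCompact_closedBall (0 : ℂ) 1).inter_right (isClosed_le c2 c1)
  have hK2 := (isCompact_closedBall (0 : ℂ) 1).inter_right (isClosed_le c1 c2)
  obtain ⟨B1, hB1⟩ := hK1.exists_bound_of_continuousOn fun a ha =>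
    (hW a (outer_lt (by linarith) ha.2)).continuousAt.continuousWithinAt
  obtain ⟨B2, hB2⟩ := hK1.exists_bound_of_continuousOn fun a ha =>
    (hM a (outer_lt (by linarith) ha.2)).continuousAt.continuousWithinAt
  obtain ⟨B3, hB3⟩ := hK2.exists_bound_of_continuousOn fun a ha =>
    (hHd a (inner_lt_one (by linarith) ha.2)).continuousAt.continuousWithinAt
  refine ⟨H, hHD, ?_, ?_, fun a e1 e2 => ?_⟩
  · refine memLp_of_le hHD.continuousOn (u := fun w => |B1| * ‖g w‖ + (|B1| * |B2| + |B3|))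
      ((hgm.norm.const_mul _).add (memLp_const _)) fun w hw => ?_
    rcases le_total (r * ‖w‖) ‖1 - w * x0‖ with h | h
    · have b1 := (hB1 w ⟨ball_subset_closedBall hw, h⟩).trans (le_abs_self _)
      have b2 := (hB2 w ⟨ball_subset_closedBall hw, h⟩).trans (le_abs_self _)
      simp only [hH, if_pos (outer_lt (r1 := r1) (by linarith) h)]
      rw [norm_mul]
      refine (mul_le_mul b1 ((norm_add_le _ _).trans (add_le_add le_rfl b2)) (norm_nonneg _)
        (abs_nonneg _)).trans ?_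
      linarith [abs_nonneg B3]
    · have b3 := (hB3 w ⟨ball_subset_closedBall hw, h⟩).trans (le_abs_self _)
      have : 0 ≤ |B1| * ‖g w‖ := by positivity
      have : 0 ≤ |B1| * |B2| := by positivity
      linarith
  · have hx : ‖x0 + r - x0‖ = r := by
      rw [add_sub_cancel_left, Complex.norm_real, Real.norm_of_nonneg (by linarith)]
    refine ⟨(x0 + r)⁻¹, mem_ball_zero_iff.mpr (hxi _ (by linarith)), ?_⟩
    simp only [hH, if_pos (hxo (x0 + r) r1 (by linarith) (by linarith))]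
    exact mul_ne_zero (mul_ne_zero (pow_ne_zero m (hA _ (by linarith) (by linarith)))
      (Complex.exp_ne_zero _)) (hψ0 _ (by linarith) (by linarith))
  · simp only [hH, if_pos (outer_lt (r1 := r1) (by linarith) e1)]
    rw [show g a + M a = 0 from e2, mul_zero]

/-- The converse of the uniqueness theorem. -/
theorem converse {z : ℕ → ℂ} (hz : ∀ n, ‖z n‖ < 1) {c0 : ℂ} {ρ ρ' : ℝ} (hρ : 0 < ρ) (hρ' : ρ < ρ')
    (hΔ : ∀ w ∈ closedBall c0 ρ', 1 < ‖w‖) (hpole : ∀ n, ∀ w ∈ closedBall c0 ρ', z n * w ≠ 1)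
    (hspan : ∀ u : ℂ → ℂ, DifferentiableOn ℂ u (ball 0 1) → MemLp u 2 μD → ∀ ε : ℝ, 0 < ε →
      ∃ (s : Finset ℕ) (a : ℕ → ℂ), ∫ w, ‖u w - comb z s a w‖ ^ 2 ∂μD < ε)
    {u : ℂ → ℂ} (hd : DifferentiableOn ℂ u (ball 0 1)) (hm : MemLp u 2 μD)
    {χ : ℂ → ℂ} (hχ : DifferentiableOn ℂ χ (closedBall c0 ρ')) {ε : ℝ} (hε : 0 < ε) :
    ∃ (s : Finset ℕ) (a : ℕ → ℂ), (∀ w ∈ closedBall c0 ρ, ‖χ w - comb z s a w‖ ≤ ε) ∧
      ∫ w, ‖u w - comb z s a w‖ ^ 2 ∂μD < ε := by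
  have hne : ∀ n, ∀ w ∈ closedBall c0 ρ, 1 - z n * w ≠ 0 :=
    fun n w hw => sub_ne_zero.mpr (hpole n w (closedBall_subset_closedBall hρ'.le hw)).symm
  have hkd : ∀ n, DifferentiableOn ℂ (fun w => ((1 - z n * w) ^ 2)⁻¹) (closedBall c0 ρ) :=
    fun n => DifferentiableOn.inv (by fun_prop) fun w hw => pow_ne_zero 2 (hne n w hw)
  have hχ' := hχ.mono (closedBall_subset_closedBall hρ'.le)
  have hmax : ∀ (s : Finset ℕ) (a : ℕ → ℂ), (∀ w ∈ sphere c0 ρ, ‖χ w - comb z s a w‖ ≤ ε) →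
      ∀ w ∈ closedBall c0 ρ, ‖χ w - comb z s a w‖ ≤ ε := by
    intro s a h w hw
    have hcd : DifferentiableOn ℂ (fun w => χ w - comb z s a w) (closedBall c0 ρ) :=
      hχ'.sub (DifferentiableOn.fun_sum fun n _ => (hkd n).const_mul _)
    refine Complex.norm_le_of_forall_mem_frontier_norm_le (U := ball c0 ρ) isBounded_ball
      (hcd.diffContOnCl_ball subset_rfl) ?_ ?_
    · rwa [frontier_ball _ hρ.ne']
    · rwa [closure_ball _ hρ.ne']
  by_contra hcon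
  push Not at hcon
  obtain ⟨g, L, N, hgd, hgm, hg, hN, hL, hz0⟩ := exists_pair' hz (Γ := sphere c0 ρ)
    (fun n => (isCompact_sphere c0 ρ).exists_bound_of_continuousOn
      ((hkd n).continuousOn.mono sphere_subset_closedBall)) hd hm
    ((isCompact_sphere c0 ρ).exists_bound_of_continuousOn
      (hχ'.continuousOn.mono sphere_subset_closedBall)) hε
    (fun s a h => hcon s a (hmax s a h))
  have hc0 : 1 + ρ' < ‖conj c0‖ := by
    rw [Complex.norm_conj]
    have h1 : 1 < ‖c0‖ := hΔ c0 (mem_closedBall_self (by linarith))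
    have h2 : ρ' < ‖c0‖ := by
      by_contra h
      have := hΔ 0 (by rw [mem_closedBall, dist_zero_left]; exact not_lt.mp h)
      norm_num at this
    have h3 := hΔ (((1 - ρ' / ‖c0‖ : ℝ) : ℂ) * c0) (by
      have : ((1 - ρ' / ‖c0‖ : ℝ) : ℂ) * c0 - c0 = ((-(ρ' / ‖c0‖) : ℝ) : ℂ) * c0 := by
        push_cast
        ring
      rw [mem_closedBall, dist_eq_norm, this, norm_mul, Complex.norm_real, norm_neg,
        Real.norm_of_nonneg (div_nonneg (by linarith) (by linarith)),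
        div_mul_cancel₀ _ (by linarith)])
    rw [norm_mul, Complex.norm_real, Real.norm_of_nonneg
      (sub_nonneg.mpr ((div_le_one (by linarith)).mpr h2.le)), sub_mul,
      div_mul_cancel₀ _ (by linarith)] at h3
    linarith
  have hL' : ∀ (ψ : ℂ → ℂ) (C : ℝ), 0 ≤ C → (∀ x ∈ sphere (conj c0) ρ, ‖ψ x‖ ≤ C) →
      ‖L ψ‖ ≤ N * C := fun ψ C hC h => hL ψ C hC fun w hw => h _ (by
    rw [mem_sphere, dist_eq_norm] at hw ⊢
    rw [← map_sub, Complex.norm_conj]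
    exact hw)
  obtain ⟨H, hHd, hHm, ⟨b, hb, hHb⟩, hH0⟩ := exists_zero_fun (L := L) hρ hρ' hc0 hN hL' hgd hgm
    fun h0 hM => hg h0 (holo_zero hρ hρ' hL (pow_zero_of_M
      (fun x hx => norm_le_of_mem_closedBall (sphere_subset_closedBall hx)) hL' hM) hχ)
  have hHz : ∀ n, H (conj (z n)) = 0 := by
    intro n
    refine hH0 _ ?_ (hz0 n)
    have e : 1 - conj (z n) * conj c0 = conj (1 - z n * c0) := by simp
    rw [e, Complex.norm_conj, Complex.norm_conj]
    by_contra h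
    have h0 : z n ≠ 0 := by
      intro h0
      rw [h0] at h
      norm_num at h
    refine hpole n (z n)⁻¹ ?_ (mul_inv_cancel₀ h0)
    have hx := norm_inv_sub (x0 := c0) (inv_ne_zero h0)
    rw [inv_inv] at hx
    rw [mem_closedBall, dist_eq_norm]
    exact (lt_of_mul_lt_mul_right (hx ▸ not_le.mp h) (norm_nonneg _)).le
  choose s a hsa using fun j : ℕ => hspan H hHd hHm (1 / ((j : ℝ) + 1)) (by positivity)
  have t1 : Tendsto (fun j => ∫ w, ‖H w - comb z (s j) (a j) w‖ ^ 2 ∂μD) atTop (𝓝 0) :=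
    squeeze_zero (fun j => integral_nonneg fun w => by positivity) (fun j => (hsa j).le)
      tendsto_one_div_add_atTop_nhds_zero_nat
  have t2 := tendsto_integral_mul hHm.norm (fun j => hHm.sub (comb_memLp hz (s j) (a j))) t1
  have t3 : ‖∫ w, H w * conj (H w) ∂μD‖ ≤ 0 := by
    refine ge_of_tendsto' t2 fun j => ?_
    have := norm_pairing_sub_le hHm (comb_memLp hz (s j) (a j)) hHm hHm.norm fun _ _ => le_rfl
    rw [pairing_comb hz hHd hHm] at this
    simpa [hHz] using this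
  have t4 : ∫ w, ‖H w‖ ^ 2 ∂μD = 0 := by
    have h1 := norm_le_zero_iff.mp t3
    simp_rw [Complex.mul_conj'] at h1
    have h2 : ((∫ w, ‖H w‖ ^ 2 ∂μD : ℝ) : ℂ) = 0 := by
      rw [← integral_complex_ofReal, ← h1]
      simp
    exact_mod_cast h2
  have t5 := (integral_eq_zero_iff_of_nonneg (fun w => by positivity) hHm.norm.integrable_sq).mp t4
  have t6 := reproducing hHd (hHm.integrable one_le_two) (mem_ball_zero_iff.mp hb)
  rw [integral_eq_zero_of_ae] at t6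
  · exact hHb ((mul_eq_zero.mp t6.symm).resolve_left (by exact_mod_cast pi_ne_zero))
  · filter_upwards [t5] with w hw
    have : H w = 0 := by simpa using hw
    simp [this]

end Pool.Agent.Lib.MP_435399_an.CV
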